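import Pool.Agent.Q225.GH.Stm

set_option autoImplicit false

/-!
# Project GH (helper225), JOB K33: two cycles whose intersection number is odd
-/

namespace Pool.Agent.Q285.GH

open Finset Pool.Agent.Q225.GH

/-- the vector `(1, 1, 0)` -/
def x1 : Fin 3 → ZMod 2 := ![1, 1, 0]

/-- the vector `(0, 1, 1)` -/
def x2 : Fin 3 → ZMod 2 := ![0, 1, 1]

/-- the vector `(1, 0, 1)` -/
def x3 : Fin 3 → ZMod 2 := ![1, 0, 1]

/-- the coefficients for the rows -/
def DD (x x' : Fin 3) : ZMod 2 := if x' = x ∨ x' = x + 1 then 1 else 0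

/-- the coefficients for the columns -/
def KK (y y' : Fin 3) : ZMod 2 := if y = y' then 0 else 1

theorem coef (x x' y y' : Fin 3) :
    (x3 x * x2 y) * (x1 x' * x1 y') + (x3 x * x1 y) * (x1 x' * x2 y') +
      (x2 x * x2 y) * (x2 x' * x1 y') + (x2 x * x1 y) * (x2 x' * x2 y') =
      DD x x' * KK y y' := by
  revert x x' y y'
  decide

theorem DD_self (x : Fin 3) : DD x x = 1 := by
  revert x
  decide

/-- the chain with coefficients `z` -/
theorem on_sum {V : Type} {H : SimpleGraph V} (T : Fin 3 → Fin 3 → Ch H) (z : Fin 3 → Fin 3 → ZMod 2) (d : H.Dart) :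
    on (∑ x, ∑ y, z x y • T x y) d = ∑ x, ∑ y, z x y * on (T x y) d := by
  unfold on
  simp only [Finset.sum_apply, Pi.smul_apply, smul_eq_mul]

variable {V : Type} [Fintype V] [DecidableEq V] {H : SimpleGraph V} [DecidableRel H.Adj]

theorem off (cls : V → Option (Fin 3 ⊕ Fin 3)) (T : Fin 3 → Fin 3 → Ch H) (S : V → ZMod 2)
    (hK : K33 cls T S) (v : V) (x y : Fin 3) (h1 : cls v ≠ some (Sum.inl x))
    (h2 : cls v ≠ some (Sum.inr y)) : ∑ d : H.Dart with d.fst = v, on (T x y) d = 0 := by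
  refine Finset.sum_eq_zero fun d hd => ?_
  rw [Finset.mem_filter] at hd
  by_contra hne
  rcases hK.supp x y d hne with h | h
  · rw [hd.2] at h
    exact h1 h.1
  · rw [hd.2] at h
    exact h2 h.1

theorem cyc (cls : V → Option (Fin 3 ⊕ Fin 3)) (T : Fin 3 → Fin 3 → Ch H) (S : V → ZMod 2)
    (hK : K33 cls T S) (u w : Fin 3 → ZMod 2) (hu : ∑ x, u x = 0) (hw : ∑ y, w y = 0) :
    Cyc (∑ x, ∑ y, (u x * w y) • T x y) := by
  intro v
  have h1 : ∑ d : H.Dart with d.fst = v, on (∑ x, ∑ y, (u x * w y) • T x y) d =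
      ∑ x, ∑ y, (u x * w y) * ∑ d : H.Dart with d.fst = v, on (T x y) d := by
    rw [Finset.sum_congr rfl fun d _ => on_sum T (fun x y => u x * w y) d, Finset.sum_comm]
    refine Finset.sum_congr rfl fun x _ => ?_
    rw [Finset.sum_comm]
    refine Finset.sum_congr rfl fun y _ => ?_
    rw [Finset.mul_sum]
  rw [h1]
  rcases hc : cls v with _ | ⟨x₀ | y₀⟩
  · refine Finset.sum_eq_zero fun x _ => Finset.sum_eq_zero fun y _ => ?_
    rw [off cls T S hK v x y (by rw [hc]; exact nofun) (by rw [hc]; exact nofun), mul_zero]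
  · rw [Finset.sum_eq_single x₀]
    · rw [Finset.sum_congr rfl fun y _ => by rw [hK.row v x₀ hc y], ← Finset.sum_mul,
        ← Finset.mul_sum, hw, mul_zero, zero_mul]
    · intro x _ hx
      refine Finset.sum_eq_zero fun y _ => ?_
      rw [off cls T S hK v x y (by
        rw [hc]
        intro h
        exact hx (Sum.inl.inj (Option.some.inj h)).symm) (by rw [hc]; exact nofun), mul_zero]
    · intro h
      exact absurd (Finset.mem_univ _) h
  · rw [Finset.sum_comm, Finset.sum_eq_single y₀]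
    · rw [Finset.sum_congr rfl fun x _ => by rw [hK.col v y₀ hc x], ← Finset.sum_mul,
        ← Finset.sum_mul, hu, zero_mul, zero_mul]
    · intro y _ hy
      refine Finset.sum_eq_zero fun x _ => ?_
      rw [off cls T S hK v x y (by rw [hc]; exact nofun) (by
        rw [hc]
        intro h
        exact hy (Sum.inr.inj (Option.some.inj h)).symm), mul_zero]
    · intro h
      exact absurd (Finset.mem_univ _) h

/-- the algebraic identity -/
theorem total (f : Fin 3 → Fin 3 → Fin 3 → Fin 3 → ZMod 2)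
    (h0 : ∀ x x' y y', x ≠ x' → y ≠ y' → f x y x' y' = 0)
    (h1 : ∀ x y y', y ≠ y' → f x y x y' + f x y' x y = 1) :
    ∑ x, ∑ y, ∑ x', ∑ y', DD x x' * KK y y' * f x y x' y' = 1 := by
  have h2 : ∀ x, ∑ y, ∑ x', ∑ y', DD x x' * KK y y' * f x y x' y' = 1 := by
    intro x
    have h3 : ∀ y, ∑ x', ∑ y', DD x x' * KK y y' * f x y x' y' =
        ∑ y', KK y y' * f x y x y' := by
      intro y
      rw [Finset.sum_eq_single x]
      · refine Finset.sum_congr rfl fun y' _ => ?_
        rw [DD_self, one_mul]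
      · intro x' _ hx
        refine Finset.sum_eq_zero fun y' _ => ?_
        by_cases hy : y = y'
        · rw [KK, if_pos hy, mul_zero, zero_mul]
        · rw [h0 x x' y y' (Ne.symm hx) hy, mul_zero]
      · intro h
        exact absurd (Finset.mem_univ _) h
    rw [Finset.sum_congr rfl fun y _ => h3 y]
    simp only [Fin.sum_univ_three]
    have e01 := h1 x 0 1 (by decide)
    have e02 := h1 x 0 2 (by decide)
    have e12 := h1 x 1 2 (by decide)
    have k00 : KK 0 0 = 0 := by decide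
    have k01 : KK 0 1 = 1 := by decide
    have k02 : KK 0 2 = 1 := by decide
    have k10 : KK 1 0 = 1 := by decide
    have k11 : KK 1 1 = 0 := by decide
    have k12 : KK 1 2 = 1 := by decide
    have k20 : KK 2 0 = 1 := by decide
    have k21 : KK 2 1 = 1 := by decide
    have k22 : KK 2 2 = 0 := by decide
    rw [k00, k01, k02, k10, k11, k12, k20, k21, k22]
    have h5 : (1 : ZMod 2) + 1 + 1 = 1 := by decide
    refine Eq.trans ?_ h5
    linear_combination e01 + e02 + e12
  rw [Finset.sum_congr rfl fun x _ => h2 x]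
  decide

theorem t_K33 (hP : S_KPAIR) (hB : S_BIL) : S_K33 := by
  intro V _ _ H _ σ pos hpos cls T S hK
  obtain ⟨p1, p2⟩ := hP V H σ pos hpos cls T S hK
  have hx1 : ∑ x, x1 x = 0 := by decide
  have hx2 : ∑ x, x2 x = 0 := by decide
  have hx3 : ∑ x, x3 x = 0 := by decide
  -- the form as a sum
  have hform : ∀ z z' : Fin 3 → Fin 3 → ZMod 2,
      form pos (∑ x, ∑ y, z x y • T x y) (∑ x, ∑ y, z' x y • T x y) =
        ∑ x, ∑ y, ∑ x', ∑ y', z x y * z' x' y' * form pos (T x y) (T x' y') := by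
    intro z z'
    have h1 := hB V H pos (Fin 3 × Fin 3) (Fin 3 × Fin 3) (fun p => z p.1 p.2)
      (fun p => z' p.1 p.2) (fun p => T p.1 p.2) (fun p => T p.1 p.2)
    simp only [Fintype.sum_prod_type] at h1
    exact h1
  have htot : form pos (∑ x, ∑ y, (x3 x * x2 y) • T x y) (∑ x, ∑ y, (x1 x * x1 y) • T x y) +
      form pos (∑ x, ∑ y, (x3 x * x1 y) • T x y) (∑ x, ∑ y, (x1 x * x2 y) • T x y) +
      form pos (∑ x, ∑ y, (x2 x * x2 y) • T x y) (∑ x, ∑ y, (x2 x * x1 y) • T x y) +
      form pos (∑ x, ∑ y, (x2 x * x1 y) • T x y) (∑ x, ∑ y, (x2 x * x2 y) • T x y) = 1 := by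
    rw [hform (fun x y => x3 x * x2 y) (fun x y => x1 x * x1 y),
      hform (fun x y => x3 x * x1 y) (fun x y => x1 x * x2 y),
      hform (fun x y => x2 x * x2 y) (fun x y => x2 x * x1 y),
      hform (fun x y => x2 x * x1 y) (fun x y => x2 x * x2 y)]
    rw [← total (fun x y x' y' => form pos (T x y) (T x' y')) p1 p2]
    simp only [← Finset.sum_add_distrib]
    refine Finset.sum_congr rfl fun x _ => Finset.sum_congr rfl fun y _ =>
      Finset.sum_congr rfl fun x' _ => Finset.sum_congr rfl fun y' _ => ?_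
    rw [← coef x x' y y']
    ring
  have hz : ∀ a : ZMod 2, a = 0 ∨ a = 1 := by decide
  rcases hz (form pos (∑ x, ∑ y, (x3 x * x2 y) • T x y) (∑ x, ∑ y, (x1 x * x1 y) • T x y))
    with h1 | h1
  · rcases hz (form pos (∑ x, ∑ y, (x3 x * x1 y) • T x y) (∑ x, ∑ y, (x1 x * x2 y) • T x y))
      with h2 | h2
    · rcases hz (form pos (∑ x, ∑ y, (x2 x * x2 y) • T x y)
        (∑ x, ∑ y, (x2 x * x1 y) • T x y)) with h3 | h3
      · rw [h1, h2, h3, zero_add, zero_add, zero_add] at htot
        exact ⟨fun x y => x2 x * x1 y, fun x y => x2 x * x2 y,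
          cyc cls T S hK x2 x1 hx2 hx1, cyc cls T S hK x2 x2 hx2 hx2, htot⟩
      · exact ⟨fun x y => x2 x * x2 y, fun x y => x2 x * x1 y,
          cyc cls T S hK x2 x2 hx2 hx2, cyc cls T S hK x2 x1 hx2 hx1, h3⟩
    · exact ⟨fun x y => x3 x * x1 y, fun x y => x1 x * x2 y,
        cyc cls T S hK x3 x1 hx3 hx1, cyc cls T S hK x1 x2 hx1 hx2, h2⟩
  · exact ⟨fun x y => x3 x * x2 y, fun x y => x1 x * x1 y,
      cyc cls T S hK x3 x2 hx3 hx2, cyc cls T S hK x1 x1 hx1 hx1, h1⟩

end Pool.Agent.Q285.GH
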